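import Pool.Agent.Helper19.PS.Defs

/-!
# PS-3: Gram matrix algebra
-/

open MeasureTheory Set Metric Filter Module Matrix
open scoped NNReal Topology RealInnerProductSpace ENNReal Real

namespace Pool.Agent.Helper19.PS

variable {d : ℕ}

/-- the vectors whose Gram matrix is `G`. -/
def ps3_U (S : NF d) (z τ : ℝ) (y : Fin d → ℝ) : Matrix (Fin d) (Fin d ⊕ Fin 2) ℝ :=
  Matrix.of fun i => Sum.elim (S.w z τ y i) ![S.a i ⬝ᵥ y, S.b i ⬝ᵥ y]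

lemma ps3_G_eq (S : NF d) (z τ : ℝ) (y : Fin d → ℝ) :
    S.G z τ y = ps3_U S z τ y * (ps3_U S z τ y)ᵀ := by
  ext i j
  rw [Matrix.mul_apply]
  simp only [ps3_U, Matrix.of_apply, Matrix.transpose_apply, Fintype.sum_sum_type,
    Sum.elim_inl, Sum.elim_inr, Fin.sum_univ_two, Matrix.cons_val_zero, Matrix.cons_val_one,
    NF.G]
  rw [dotProduct]
  ring

theorem NF.posSemidef_G {d : ℕ} (S : NF d) (z τ : ℝ) (y : Fin d → ℝ) :
    (S.G z τ y).PosSemidef := by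
  rw [ps3_G_eq]
  have := Matrix.posSemidef_self_mul_conjTranspose (ps3_U S z τ y)
  rwa [Matrix.conjTranspose_eq_transpose_of_trivial] at this

/-- skew matrices. -/
lemma ps3_skew {C : Matrix (Fin d) (Fin d) ℝ} (hC : Cᵀ = -C) (x y : Fin d → ℝ) :
    x ⬝ᵥ (C *ᵥ y) = -((C *ᵥ x) ⬝ᵥ y) := by
  rw [Matrix.dotProduct_mulVec, ← Matrix.mulVec_transpose, hC, Matrix.neg_mulVec, neg_dotProduct]

lemma ps3_skew_self {C : Matrix (Fin d) (Fin d) ℝ} (hC : Cᵀ = -C) (y : Fin d → ℝ) :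
    y ⬝ᵥ (C *ᵥ y) = 0 := by
  have h := ps3_skew hC y y
  rw [dotProduct_comm (C *ᵥ y) y] at h
  linarith

lemma ps3_cross (S : NF d) (y : Fin d → ℝ) : ∑ i, S.a i ⬝ᵥ (S.C i *ᵥ y) = 0 := by
  have h : ∀ i, S.a i ⬝ᵥ (S.C i *ᵥ y) = -((S.C i *ᵥ S.a i) ⬝ᵥ y) := fun i =>
    ps3_skew (S.skew i) _ _
  simp only [h]
  rw [Finset.sum_neg_distrib, ← sum_dotProduct, S.Ca, zero_dotProduct, neg_zero]

lemma ps3_sq (z : ℝ) (a v : Fin d → ℝ) : (z • a + v) ⬝ᵥ (z • a + v) =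
    z ^ 2 * (a ⬝ᵥ a) + 2 * z * (a ⬝ᵥ v) + v ⬝ᵥ v := by
  simp only [add_dotProduct, dotProduct_add, smul_dotProduct, dotProduct_smul, smul_eq_mul,
    dotProduct_comm v a]
  ring

theorem NF.trace_G {d : ℕ} (S : NF d) (z τ : ℝ) (y : Fin d → ℝ) :
    trace (S.G z τ y) = (d - S.be) * z ^ 2 + S.pp y + S.BB τ y := by
  have h1 : ∀ i, S.G z τ y i i = z ^ 2 * (S.a i ⬝ᵥ S.a i) + 2 * z * τ * (S.b i ⬝ᵥ S.a i)
      + 2 * z * (S.a i ⬝ᵥ (S.C i *ᵥ y)) + (S.a i ⬝ᵥ y) ^ 2 + ((S.b i ⬝ᵥ y) ^ 2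
      + (τ • S.b i + S.C i *ᵥ y) ⬝ᵥ (τ • S.b i + S.C i *ᵥ y)) := by
    intro i
    simp only [NF.G, Matrix.of_apply, NF.w]
    rw [add_assoc (z • S.a i) (τ • S.b i) (S.C i *ᵥ y)]
    rw [ps3_sq]
    set v := τ • S.b i + S.C i *ᵥ y with hv
    have h2 : S.a i ⬝ᵥ v = τ * (S.b i ⬝ᵥ S.a i) + S.a i ⬝ᵥ (S.C i *ᵥ y) := by
      rw [hv, dotProduct_add, dotProduct_smul, smul_eq_mul, dotProduct_comm (S.a i) (S.b i)]
    rw [h2]
    ring
  unfold trace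
  simp only [Matrix.diag_apply, h1]
  rw [Finset.sum_add_distrib, Finset.sum_add_distrib, Finset.sum_add_distrib,
    Finset.sum_add_distrib, ← Finset.mul_sum, ← Finset.mul_sum, ← Finset.mul_sum, S.top, S.ab,
    ps3_cross]
  unfold NF.pp NF.BB
  ring

theorem NF.quad_G {d : ℕ} (S : NF d) (z τ : ℝ) (y : Fin d → ℝ) :
    S.pp y * (S.pp y * (z ^ 2 + y ⬝ᵥ y) + 2 * z * τ * S.SS y)
      ≤ (y ⬝ᵥ y) * ((fun i => S.a i ⬝ᵥ y) ⬝ᵥ (S.G z τ y *ᵥ fun i => S.a i ⬝ᵥ y)) := by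
  set p : Fin d → ℝ := fun i => S.a i ⬝ᵥ y with hp
  set v : Fin d → ℝ := ∑ i, p i • S.w z τ y i with hv
  have h1 : p ⬝ᵥ (S.G z τ y *ᵥ p) = v ⬝ᵥ v + S.pp y ^ 2 + S.SS y ^ 2 := by
    have h2 : p ⬝ᵥ (S.G z τ y *ᵥ p) = ∑ i, ∑ j, (p i * p j * (S.w z τ y i ⬝ᵥ S.w z τ y j)
        + (p i * p i) * (p j * p j) + (p i * (S.b i ⬝ᵥ y)) * (p j * (S.b j ⬝ᵥ y))) := by
      rw [dotProduct]
      refine Finset.sum_congr rfl fun i _ => ?_
      rw [Matrix.mulVec, dotProduct, Finset.mul_sum]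
      refine Finset.sum_congr rfl fun j _ => ?_
      simp only [NF.G, Matrix.of_apply]
      simp only [hp]
      ring
    have h3 : v ⬝ᵥ v = ∑ i, ∑ j, p i * p j * (S.w z τ y i ⬝ᵥ S.w z τ y j) := by
      rw [hv, sum_dotProduct]
      refine Finset.sum_congr rfl fun i _ => ?_
      rw [dotProduct_sum]
      refine Finset.sum_congr rfl fun j _ => ?_
      rw [smul_dotProduct, dotProduct_smul, smul_eq_mul, smul_eq_mul]
      ring
    have h4 : S.pp y ^ 2 = ∑ i, ∑ j, (p i * p i) * (p j * p j) := by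
      rw [sq, NF.pp, Finset.sum_mul_sum]
      refine Finset.sum_congr rfl fun i _ => Finset.sum_congr rfl fun j _ => ?_
      simp only [hp]
      ring
    have h5 : S.SS y ^ 2 = ∑ i, ∑ j, (p i * (S.b i ⬝ᵥ y)) * (p j * (S.b j ⬝ᵥ y)) := by
      rw [sq, NF.SS, Finset.sum_mul_sum]
    rw [h2, h3, h4, h5, ← Finset.sum_add_distrib, ← Finset.sum_add_distrib]
    refine Finset.sum_congr rfl fun i _ => ?_
    rw [← Finset.sum_add_distrib, ← Finset.sum_add_distrib]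
  have h2 : v ⬝ᵥ y = z * S.pp y + τ * S.SS y := by
    rw [hv, sum_dotProduct]
    have h3 : ∀ i, (p i • S.w z τ y i) ⬝ᵥ y = z * (p i) ^ 2 + τ * (p i * (S.b i ⬝ᵥ y)) := by
      intro i
      have h4 : (S.C i *ᵥ y) ⬝ᵥ y = 0 := by
        rw [dotProduct_comm]
        exact ps3_skew_self (S.skew i) y
      rw [smul_dotProduct, NF.w, add_dotProduct, add_dotProduct, smul_dotProduct, smul_dotProduct,
        h4]
      simp only [smul_eq_mul, hp]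
      ring
    simp only [h3]
    rw [Finset.sum_add_distrib, ← Finset.mul_sum, ← Finset.mul_sum]
    rfl
  have h3 : (v ⬝ᵥ y) ^ 2 ≤ (v ⬝ᵥ v) * (y ⬝ᵥ y) := by
    have := Finset.sum_mul_sq_le_sq_mul_sq Finset.univ v y
    simp only [dotProduct, ← sq]
    exact this
  have h4 : 0 ≤ y ⬝ᵥ y := by
    rw [dotProduct]
    exact Finset.sum_nonneg fun i _ => mul_self_nonneg _
  rw [h1]
  rw [h2] at h3
  nlinarith [sq_nonneg (S.SS y), mul_nonneg h4 (sq_nonneg (S.SS y)), sq_nonneg (τ * S.SS y)]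

end Pool.Agent.Helper19.PS
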